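import Pool.Agent.Helper19.ET.Kind3

/-! Sets whose sumset has density zero are thin. -/

set_option autoImplicit false

namespace Pool.Agent.Helper19.ET

open Filter

/-- the set of all sums of two elements of `D` that are smaller than `x` -/
def sums (D : Set ℕ) (x : ℕ) : Set ℕ := {s | ∃ a b : ℕ, a ∈ D ∧ b ∈ D ∧ a < x ∧ b < x ∧ a + b = s}

lemma sums_finite (D : Set ℕ) (x : ℕ) : (sums D x).Finite := by
  apply (Set.finite_Iio (2 * x)).subset
  rintro s ⟨a, b, _, _, ha, hb, rfl⟩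
  simp only [Set.mem_Iio]
  omega

lemma rep_set_finite (A : Set ℕ) (n : ℕ) :
    {p : ℕ × ℕ | p.1 ∈ A ∧ p.2 ∈ A ∧ p.1 + p.2 = n}.Finite := by
  apply Set.Finite.subset (Finset.finite_toSet (Finset.HasAntidiagonal.antidiagonal n))
  rintro ⟨a, b⟩ ⟨_, _, h⟩
  simpa using h

lemma sq_le_rep_mul (A : Set ℕ) {g : ℕ} (hg : ∀ n, rep A n ≤ g) (x : ℕ) :
    (A ∩ Set.Iio x).ncard ^ 2 ≤ g * (sums A x).ncard := by
  classical
  have hfin : (A ∩ Set.Iio x).Finite := (Set.finite_Iio x).subset Set.inter_subset_right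
  set S := hfin.toFinset with hS
  have hcard : (A ∩ Set.Iio x).ncard = S.card := Set.ncard_eq_toFinset_card _ hfin
  have hmem : ∀ a, a ∈ S ↔ a ∈ A ∧ a < x := by
    intro a
    rw [hS, Set.Finite.mem_toFinset]
    simp
  have h1 : (S ×ˢ S).card ≤ g * ((S ×ˢ S).image (fun p => p.1 + p.2)).card := by
    apply Finset.card_le_mul_card_image
    intro n _
    refine le_trans ?_ (hg n)
    unfold rep
    rw [← Set.ncard_coe_finset]
    apply Set.ncard_le_ncard _ (rep_set_finite A n)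
    rintro ⟨a, b⟩ h
    simp only [Finset.coe_filter, Finset.mem_product, Set.mem_ofPred_eq, hmem] at h
    exact ⟨h.1.1.1, h.1.2.1, h.2⟩
  have h2 : ((S ×ˢ S).image (fun p => p.1 + p.2)).card ≤ (sums A x).ncard := by
    rw [← Set.ncard_coe_finset]
    apply Set.ncard_le_ncard _ (sums_finite A x)
    intro s hs
    simp only [Finset.coe_image, Finset.coe_product, Set.mem_image, Set.mem_prod,
      Finset.mem_coe, hmem] at hs
    obtain ⟨⟨a, b⟩, ⟨⟨ha, hax⟩, ⟨hb, hbx⟩⟩, hab⟩ := hs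
    exact ⟨a, b, ha, hb, hax, hbx, hab⟩
  rw [hcard, sq, ← Finset.card_product]
  exact h1.trans (Nat.mul_le_mul_left g h2)

lemma sums_mono {A D : Set ℕ} (h : A ⊆ D) (x : ℕ) : sums A x ⊆ sums D x := by
  rintro s ⟨a, b, ha, hb, hax, hbx, hab⟩
  exact ⟨a, b, h ha, h hb, hax, hbx, hab⟩

theorem thin_of_sumset {D : Set ℕ}
    (h0 : ∀ ε : ℝ, 0 < ε → ∀ᶠ x : ℕ in atTop, ((sums D x).ncard : ℝ) ≤ ε * x)
    {A : Set ℕ} (hAD : A ⊆ D) {g : ℕ} (hg : ∀ n, rep A n ≤ g) {c : ℝ} (hc : 0 < c) :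
    ∀ᶠ x : ℕ in atTop, ((A ∩ Set.Iio x).ncard : ℝ) < c * Real.sqrt x := by
  have hε : (0 : ℝ) < c ^ 2 / (2 * ((g : ℝ) + 1)) := by positivity
  refine ((h0 _ hε).and (eventually_ge_atTop 1)).mono ?_
  rintro x ⟨hx, hx1⟩
  have hxp : (0 : ℝ) < x := by exact_mod_cast hx1
  by_contra hcon
  rw [not_lt] at hcon
  have h1 : ((A ∩ Set.Iio x).ncard : ℝ) ^ 2 ≤ g * ((sums D x).ncard : ℝ) := by
    have h2 : (sums A x).ncard ≤ (sums D x).ncard :=
      Set.ncard_le_ncard (sums_mono hAD x) (sums_finite D x)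
    exact_mod_cast (sq_le_rep_mul A hg x).trans (Nat.mul_le_mul_left g h2)
  have h2 : c ^ 2 * x ≤ ((A ∩ Set.Iio x).ncard : ℝ) ^ 2 := by
    calc c ^ 2 * x = (c * Real.sqrt x) ^ 2 := by rw [mul_pow, Real.sq_sqrt hxp.le]
      _ ≤ _ := pow_le_pow_left₀ (by positivity) hcon 2
  have h3 : (g : ℝ) * ((sums D x).ncard : ℝ) ≤ g * (c ^ 2 / (2 * ((g : ℝ) + 1)) * x) :=
    mul_le_mul_of_nonneg_left hx (by positivity)
  have h4 : (g : ℝ) * (c ^ 2 / (2 * ((g : ℝ) + 1)) * x) < c ^ 2 * x := by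
    have h5 : (g : ℝ) * (c ^ 2 / (2 * ((g : ℝ) + 1)) * x) =
        (g / (2 * ((g : ℝ) + 1))) * (c ^ 2 * x) := by ring
    rw [h5]
    have h6 : (g : ℝ) / (2 * ((g : ℝ) + 1)) < 1 := by
      rw [div_lt_one (by positivity)]
      have : (0 : ℝ) ≤ g := by positivity
      linarith
    have h7 : 0 < c ^ 2 * (x : ℝ) := by positivity
    nlinarith
  linarith

end Pool.Agent.Helper19.ET
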