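import Mathlib
import Pool.Agent.Helper1.Kept.LowComplexity12a1af

/-! Sets of complexity `n ^ (1 + o(1))` and size `x ^ (1/2 + o(1))` are thin; sets whose sumset
has density zero are thin. -/

set_option autoImplicit false

namespace Pool.Agent.Helper19.ET

open Filter Pool.Agent.Results.MP_12a1af_nt.LowComplexity

/-- number of ordered representations -/
noncomputable def rep (A : Set ℕ) (n : ℕ) : ℕ :=
  {p : ℕ × ℕ | p.1 ∈ A ∧ p.2 ∈ A ∧ p.1 + p.2 = n}.ncard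

/-- a power inequality used below -/
lemma rpow_eventually_le {a : ℝ} (ha : 0 < a) {c : ℝ} (hc : 0 < c) :
    ∀ᶠ x : ℕ in atTop, (x : ℝ) ^ (-a) ≤ c := by
  have h : Tendsto (fun x : ℕ => (x : ℝ) ^ (-a)) atTop (nhds 0) :=
    (tendsto_rpow_neg_atTop ha).comp tendsto_natCast_atTop_atTop
  exact (h.eventually (gt_mem_nhds hc)).mono (fun x hx => hx.le)

theorem thin_of_complexity {D : Set ℕ}
    (h1 : ∀ η : ℝ, 0 < η → ∀ᶠ n : ℕ in atTop, (factorComplexity D n : ℝ) ≤ (n : ℝ) ^ (1 + η))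
    (h2 : ∀ η : ℝ, 0 < η → ∀ᶠ x : ℕ in atTop, ((D ∩ Set.Iio x).ncard : ℝ) ≤ (x : ℝ) ^ (1 / 2 + η))
    {A : Set ℕ} (hAD : A ⊆ D) {g : ℕ} (hg : ∀ n, rep A n ≤ g) {c : ℝ} (hc : 0 < c) :
    ∀ᶠ x : ℕ in atTop, ((A ∩ Set.Iio x).ncard : ℝ) < c * Real.sqrt x := by
  by_contra hcon
  rw [not_eventually] at hcon
  simp only [not_lt] at hcon
  -- choose `d` and `δ`
  obtain ⟨d, hd⟩ : ∃ d : ℕ, g < 2 ^ (d + 1) := by
    refine ⟨g, ?_⟩
    calc g < 2 ^ g := Nat.lt_two_pow_self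
      _ ≤ 2 ^ (g + 1) := Nat.pow_le_pow_right (by norm_num) (by omega)
  set δ : ℝ := 1 / (4 * ((d : ℝ) + 1)) with hδ
  have hδ0 : 0 < δ := by rw [hδ]; positivity
  have hpow : (1 - 1 / 4 : ℝ) * (1 + δ) ^ d < 1 := by
    have e1 : (1 + δ) ^ d ≤ Real.exp (δ * d) := by
      calc (1 + δ) ^ d ≤ (Real.exp δ) ^ d := by
            apply pow_le_pow_left₀ (by linarith)
            have := Real.add_one_le_exp δ
            linarith
        _ = Real.exp (δ * d) := by rw [← Real.exp_nat_mul, mul_comm]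
    have e2 : δ * d < 1 / 4 := by
      rw [hδ, div_mul_eq_mul_div, one_mul, div_lt_div_iff₀ (by positivity) (by norm_num)]
      linarith
    have e3 : Real.exp (1 / 4) ≤ 4 / 3 := by
      have h := Real.add_one_le_exp (-(1 / 4 : ℝ))
      rw [Real.exp_neg] at h
      have h0 := Real.exp_pos (1 / 4 : ℝ)
      have h3 : (3 / 4 : ℝ) ≤ (Real.exp (1 / 4))⁻¹ := by linarith
      have h4 := (le_inv_comm₀ (by norm_num : (0 : ℝ) < 3 / 4) h0).1 h3
      linarith
    have e4 := Real.exp_lt_exp.2 e2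
    nlinarith
  -- apply the theorem on relatively dense subsets
  have hkey : ∃ n : ℕ, 2 ^ (d + 1) ≤ {p : ℕ × ℕ | p.1 ∈ A ∧ p.2 ∈ A ∧ p.1 + p.2 = n}.ncard := by
    refine result A D hAD d (1 / 4) δ hδ0.le hpow (h1 δ hδ0) ?_
    intro γ hγ
    have ev1 : ∀ᶠ x : ℕ in atTop, (x : ℝ) ^ (-(1 / 4 : ℝ)) ≤ c :=
      rpow_eventually_le (by norm_num) hc
    have ev2 : ∀ᶠ x : ℕ in atTop, (x : ℝ) ^ (-(γ / 2)) ≤ c :=
      rpow_eventually_le (by linarith) hc
    have ev3 := h2 (γ / 2) (by linarith)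
    refine (hcon.and_eventually (ev1.and (ev2.and (ev3.and (eventually_ge_atTop 1))))).mono ?_
    rintro x ⟨hx, hx1, hx2, hx3, hx4⟩
    have hxp : (0 : ℝ) < x := by exact_mod_cast hx4
    have hAB : ((A ∩ Set.Iio x).ncard : ℝ) ≤ ((D ∩ Set.Iio x).ncard : ℝ) := by
      have hfin : (D ∩ Set.Iio x).Finite := (Set.finite_Iio x).subset Set.inter_subset_right
      exact_mod_cast Set.ncard_le_ncard (Set.inter_subset_inter_left _ hAD) hfin
    have hsq : Real.sqrt x = (x : ℝ) ^ (1 / 2 : ℝ) := Real.sqrt_eq_rpow x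
    constructor
    · refine le_trans ?_ hAB
      refine le_trans ?_ hx
      have : (x : ℝ) ^ (1 / 4 : ℝ) = (x : ℝ) ^ (-(1 / 4 : ℝ)) * Real.sqrt x := by
        rw [hsq, ← Real.rpow_add hxp]
        norm_num
      rw [this]
      exact mul_le_mul_of_nonneg_right hx1 (Real.sqrt_nonneg _)
    · refine le_trans ?_ hx
      calc (x : ℝ) ^ (-γ) * ((D ∩ Set.Iio x).ncard : ℝ)
          ≤ (x : ℝ) ^ (-γ) * (x : ℝ) ^ (1 / 2 + γ / 2) :=
            mul_le_mul_of_nonneg_left hx3 (Real.rpow_nonneg hxp.le _)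
        _ = (x : ℝ) ^ (-(γ / 2)) * Real.sqrt x := by
            rw [hsq, ← Real.rpow_add hxp, ← Real.rpow_add hxp]
            congr 1
            ring
        _ ≤ c * Real.sqrt x := mul_le_mul_of_nonneg_right hx2 (Real.sqrt_nonneg _)
  obtain ⟨n, hn⟩ := hkey
  have := hg n
  unfold rep at this
  omega

end Pool.Agent.Helper19.ET
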