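import Pool.Agent.Helper19.ET.Kind0

/-! A general local criterion for thinness: the cells (residue class mod `q`) x (interval) met by
`D` carry no probability weights whose convolution square is bounded. -/

set_option autoImplicit false

namespace Pool.Agent.Helper19.ET

open Filter Finset

/-- the cells: (number of the interval, residue class) -/
def cells (M q : ℕ) : Finset (ℕ × ℕ) := range M ×ˢ range q

/-- the cell of `n`, for `n < x` -/
def cell (M q x n : ℕ) : ℕ × ℕ := (n * M / x, n % q)

/-- value at `(k, s)` of the convolution square of the weights `p` -/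
noncomputable def convSq (M q : ℕ) (p : ℕ × ℕ → ℝ) (k s : ℕ) : ℝ :=
  ∑ w ∈ (cells M q ×ˢ cells M q).filter (fun w => w.1.1 + w.2.1 = k ∧ (w.1.2 + w.2.2) % q = s),
    p w.1 * p w.2

/-- `D` is locally thin: for every `C` there are a number `M` of intervals and a modulus `q` such
that for all large `x` the cells met by `D ∩ [0,x)` carry no probability weights with convolution
square bounded by `C / (M q)` -/
def LocallyThin (D : Set ℕ) : Prop :=
  ∀ C : ℝ, ∃ M q : ℕ, 1 ≤ M ∧ 1 ≤ q ∧ ∀ᶠ x : ℕ in atTop, ∀ p : ℕ × ℕ → ℝ, (∀ u, 0 ≤ p u) →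
    (∀ u, p u ≠ 0 → ∃ n ∈ D, n < x ∧ cell M q x n = u) → ∑ u ∈ cells M q, p u = 1 →
    ∃ k s : ℕ, C < M * q * convSq M q p k s

lemma cell_mem {M q x n : ℕ} (hq : 1 ≤ q) (hn : n < x) : cell M q x n ∈ cells M q ∨ M = 0 := by
  rcases Nat.eq_zero_or_pos M with h | h
  · right; exact h
  · left
    simp only [cell, cells, mem_product, mem_range]
    refine ⟨?_, Nat.mod_lt n hq⟩
    rw [Nat.div_lt_iff_lt_mul (by omega)]
    nlinarith

/-- number of integers of a class in a window -/
lemma card_window_le (M q x k s : ℕ) (hM : 1 ≤ M) (hq : 1 ≤ q) (hx : 1 ≤ x) :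
    (((range (2 * x)).filter (fun n => k * x ≤ n * M ∧ n * M < (k + 2) * x ∧ n % q = s)).card : ℝ) ≤
      2 * x / (M * q) + 2 := by
  classical
  set S := (range (2 * x)).filter (fun n => k * x ≤ n * M ∧ n * M < (k + 2) * x ∧ n % q = s) with hS
  -- all elements are within `2x/M` of the smallest one, and congruent mod `q`
  rcases S.eq_empty_or_nonempty with h | h
  · rw [h]
    simp only [card_empty, Nat.cast_zero]
    positivity
  set m := S.min' h with hm
  have hmS : m ∈ S := S.min'_mem h
  have hmem : ∀ n ∈ S, k * x ≤ n * M ∧ n * M < (k + 2) * x ∧ n % q = s := by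
    intro n hn
    exact (mem_filter.1 hn).2
  -- the injection `n ↦ (n - m) / q` into `range (2x/(Mq) + 1)`
  have hbound : ∀ n ∈ S, (n - m) / q ≤ 2 * x / (M * q) := by
    intro n hn
    have h1 := hmem n hn
    have h2 := hmem m hmS
    have h4 : (n - m) * M ≤ 2 * x := by
      have e : (n - m) * M = n * M - m * M := Nat.sub_mul n m M
      have e2 : (k + 2) * x = k * x + 2 * x := by ring
      omega
    rw [Nat.le_div_iff_mul_le (Nat.mul_pos hM hq)]
    have h5 : (n - m) / q * q ≤ n - m := Nat.div_mul_le_self _ _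
    calc (n - m) / q * (M * q) = (n - m) / q * q * M := by ring
      _ ≤ (n - m) * M := Nat.mul_le_mul_right _ h5
      _ ≤ 2 * x := h4
  have hcard : S.card ≤ (range (2 * x / (M * q) + 1)).card := by
    apply card_le_card_of_injOn (fun n => (n - m) / q)
    · intro n hn
      simp only [coe_range, Set.mem_Iio]
      have := hbound n hn
      omega
    · intro a ha b hb hab
      have h1 := (hmem a ha).2.2
      have h2 := (hmem b hb).2.2
      have h3 := (hmem m hmS).2.2
      have hma : m ≤ a := S.min'_le a ha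
      have hmb : m ≤ b := S.min'_le b hb
      have ea : q ∣ a - m := (Nat.modEq_iff_dvd' hma).1 (by unfold Nat.ModEq; omega)
      have eb : q ∣ b - m := (Nat.modEq_iff_dvd' hmb).1 (by unfold Nat.ModEq; omega)
      simp only at hab
      have e1 := Nat.div_mul_cancel ea
      have e2 := Nat.div_mul_cancel eb
      rw [hab, e2] at e1
      omega
  rw [card_range] at hcard
  have h6 : ((2 * x / (M * q) : ℕ) : ℝ) ≤ (2 * x : ℝ) / (M * q) := by
    have := @Nat.cast_div_le ℝ _ _ _ (2 * x) (M * q)
    push_cast at this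
    exact this
  have h7 : (S.card : ℝ) ≤ ((2 * x / (M * q) : ℕ) : ℝ) + 1 := by exact_mod_cast hcard
  linarith

theorem thin_of_locallyThin {D : Set ℕ} (hD : LocallyThin D) {A : Set ℕ} (hAD : A ⊆ D) {g : ℕ}
    (hg : ∀ n, rep A n ≤ g) {c : ℝ} (hc : 0 < c) :
    ∀ᶠ x : ℕ in atTop, ((A ∩ Set.Iio x).ncard : ℝ) < c * Real.sqrt x := by
  classical
  obtain ⟨M, q, hM, hq, hev⟩ := hD (2 * g / c ^ 2 + 1)
  have hMr : (1 : ℝ) ≤ M := by exact_mod_cast hM
  have hqr : (1 : ℝ) ≤ q := by exact_mod_cast hq
  have hlim : ∀ᶠ x : ℕ in atTop, 2 * g * (M * q) / c ^ 2 ≤ (x : ℝ) :=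
    tendsto_natCast_atTop_atTop.eventually_ge_atTop _
  refine (hev.and (hlim.and (eventually_ge_atTop 1))).mono ?_
  rintro x ⟨hx, hx1, hx2⟩
  by_contra hcon
  rw [not_lt] at hcon
  have hxp : (0 : ℝ) < x := by exact_mod_cast hx2
  have hfin : (A ∩ Set.Iio x).Finite := (Set.finite_Iio x).subset Set.inter_subset_right
  set S := hfin.toFinset with hS
  have hcardS : (A ∩ Set.Iio x).ncard = S.card := Set.ncard_eq_toFinset_card _ hfin
  have hmemS : ∀ a, a ∈ S ↔ a ∈ A ∧ a < x := by
    intro a
    rw [hS, Set.Finite.mem_toFinset]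
    simp
  rw [hcardS] at hcon
  have hSpos : (0 : ℝ) < S.card := lt_of_lt_of_le (by positivity) hcon
  have hSsq : c ^ 2 * x ≤ (S.card : ℝ) ^ 2 := by
    calc c ^ 2 * x = (c * Real.sqrt x) ^ 2 := by rw [mul_pow, Real.sq_sqrt hxp.le]
      _ ≤ _ := pow_le_pow_left₀ (by positivity) hcon 2
  -- the weights
  let cnt : ℕ × ℕ → ℕ := fun u => (S.filter (fun a => cell M q x a = u)).card
  let p : ℕ × ℕ → ℝ := fun u => (cnt u : ℝ) / S.card
  have hcell : ∀ a ∈ S, cell M q x a ∈ cells M q := by
    intro a ha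
    rcases cell_mem (M := M) hq ((hmemS a).1 ha).2 with h | h
    · exact h
    · omega
  obtain ⟨k, s, hks⟩ := hx p (fun u => by positivity) (by
    intro u hu
    have h1 : cnt u ≠ 0 := by
      intro h0
      apply hu
      simp only [p, h0, Nat.cast_zero, zero_div]
    obtain ⟨a, ha⟩ := card_ne_zero.1 h1
    rw [mem_filter, hmemS] at ha
    exact ⟨a, hAD ha.1.1, ha.1.2, ha.2⟩) (by
    simp only [p]
    rw [← sum_div, div_eq_one_iff_eq hSpos.ne']
    have := card_eq_sum_card_fiberwise (s := S) (t := cells M q) (f := cell M q x) hcell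
    rw [this]
    push_cast
    rfl)
  -- bound of the convolution square
  set W := (cells M q ×ˢ cells M q).filter
    (fun w => w.1.1 + w.2.1 = k ∧ (w.1.2 + w.2.2) % q = s) with hW
  set P := (S ×ˢ S).filter (fun w => (cell M q x w.1, cell M q x w.2) ∈ W) with hP
  have h1 : convSq M q p k s = (P.card : ℝ) / (S.card : ℝ) ^ 2 := by
    have e1 : P.card = ∑ w ∈ W, cnt w.1 * cnt w.2 := by
      rw [card_eq_sum_card_fiberwise (s := P) (t := W)
        (f := fun w => (cell M q x w.1, cell M q x w.2)) (fun w hw => (mem_filter.1 hw).2)]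
      apply sum_congr rfl
      rintro ⟨u, v⟩ huv
      simp only [cnt]
      rw [← card_product]
      congr 1
      ext ⟨a, b⟩
      simp only [hP, mem_filter, mem_product, Prod.mk.injEq]
      constructor
      · rintro ⟨⟨⟨ha, hb⟩, _⟩, h1, h2⟩
        exact ⟨⟨ha, h1⟩, ⟨hb, h2⟩⟩
      · rintro ⟨⟨ha, h1⟩, ⟨hb, h2⟩⟩
        refine ⟨⟨⟨ha, hb⟩, ?_⟩, h1, h2⟩
        rw [h1, h2]
        exact huv
    rw [e1]
    unfold convSq
    push_cast
    rw [← hW, sum_div]
    apply sum_congr rfl
    intro w _
    simp only [p]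
    field_simp
  -- count `P` by the value of the sum
  have h2 : P.card ≤ g * ((range (2 * x)).filter
      (fun n => k * x ≤ n * M ∧ n * M < (k + 2) * x ∧ n % q = s)).card := by
    apply card_le_mul_card_image_of_maps_to (f := fun w : ℕ × ℕ => w.1 + w.2)
    · rintro ⟨a, b⟩ hab
      simp only [hP, hW, mem_filter, mem_product, hmemS, cell] at hab
      obtain ⟨⟨⟨_, hax⟩, ⟨_, hbx⟩⟩, _, hk, hs⟩ := hab
      simp only [mem_filter, mem_range]
      have a1 := Nat.div_add_mod (a * M) x
      have a2 := Nat.mod_lt (a * M) hx2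
      have b1 := Nat.div_add_mod (b * M) x
      have b2 := Nat.mod_lt (b * M) hx2
      have e : k * x = x * (a * M / x) + x * (b * M / x) := by rw [← hk]; ring
      have e2 : (k + 2) * x = k * x + 2 * x := by ring
      have e3 : (a + b) * M = a * M + b * M := by ring
      refine ⟨by omega, by omega, by omega, ?_⟩
      rw [Nat.add_mod] at hs
      rw [← hs, Nat.mod_mod, Nat.mod_mod, ← Nat.add_mod]
    · intro n _
      refine le_trans ?_ (hg n)
      unfold rep
      rw [← Set.ncard_coe_finset]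
      apply Set.ncard_le_ncard _ (rep_set_finite A n)
      rintro ⟨a, b⟩ h
      simp only [hP, coe_filter, mem_filter, mem_product, Set.mem_ofPred_eq, hmemS] at h
      exact ⟨h.1.1.1.1, h.1.1.2.1, h.2⟩
  have h3 : (P.card : ℝ) ≤ g * (2 * x / (M * q) + 2) := by
    calc (P.card : ℝ) ≤ g * (((range (2 * x)).filter
          (fun n => k * x ≤ n * M ∧ n * M < (k + 2) * x ∧ n % q = s)).card : ℝ) := by
          exact_mod_cast h2
      _ ≤ _ := mul_le_mul_of_nonneg_left (card_window_le M q x k s hM hq hx2) (by positivity)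
  have h4 : (M : ℝ) * q * convSq M q p k s ≤ 2 * g / c ^ 2 + 1 := by
    rw [h1, mul_div_assoc', div_le_iff₀ (by positivity)]
    calc (M : ℝ) * q * P.card ≤ M * q * (g * (2 * x / (M * q) + 2)) :=
          mul_le_mul_of_nonneg_left h3 (by positivity)
      _ = 2 * g * x + 2 * g * (M * q) := by field_simp
      _ ≤ 2 * g * x + c ^ 2 * x := by
          have := (div_le_iff₀ (by positivity : (0 : ℝ) < c ^ 2)).1 hx1
          linarith
      _ = (2 * g / c ^ 2 + 1) * (c ^ 2 * x) := by field_simp
      _ ≤ (2 * g / c ^ 2 + 1) * (S.card : ℝ) ^ 2 :=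
          mul_le_mul_of_nonneg_left hSsq (by positivity)
  linarith

end Pool.Agent.Helper19.ET
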